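import Mathlib
import Pool.Agent.H12.Hughes9

set_option autoImplicit false

namespace Pool.Agent.Results.MP_adbd0c_co.OrderNine

open Pool.Agent.H12.Hughes9

/-- There are 8 mutually orthogonal quasigroups of order 9, none isotopic to a group. -/
theorem result : ∃ op : Fin 8 → Fin 9 → Fin 9 → Fin 9,
    (∀ i a b, (∃! x, op i a x = b) ∧ (∃! y, op i y a = b)) ∧
    (∀ i j, i ≠ j → Function.Injective (fun p : Fin 9 × Fin 9 => (op i p.1 p.2, op j p.1 p.2))) ∧
    (∀ i, ∀ (G : Type) [Group G] (α β γ : Fin 9 ≃ G), ¬ ∀ x y, γ (op i x y) = α x * β y) := by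
  refine ⟨L, fun i a b => ⟨?_, ?_⟩, ?_, fun i G _ α β γ => not_group i G α β γ⟩
  · exact (Finite.injective_iff_bijective.1 (fun y y' h => rows i a y y' h)).existsUnique b
  · exact (Finite.injective_iff_bijective.1 (fun y y' h => cols i a y y' h)).existsUnique b
  · rintro i j hij ⟨x, y⟩ ⟨x', y'⟩ h
    simp only [Prod.mk.injEq] at h
    by_cases hx : x = x'
    · subst hx
      rw [rows i x y y' h.1]
    · exact absurd h.2 (orth i j hij x x' hx y y' h.1)

end Pool.Agent.Results.MP_adbd0c_co.OrderNine
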